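import Mathlib
import Pool.Agent.W225.MWDIO
import Pool.Agent.W928.MW.Sup

/-! # the triple sum -/

set_option autoImplicit false

open Finset MeasureTheory

namespace Pool.Agent.Helper34K9.FD

/-- `∑_{n ≤ N} n^(-b) ≤ N^(1-b) / (1-b)` -/
theorem sum_rpow (b : ℝ) (hb0 : 0 ≤ b) (hb1 : b < 1) (N : ℕ) :
    ∑ n ∈ Icc 1 N, (n : ℝ) ^ (-b) ≤ (N : ℝ) ^ (1 - b) / (1 - b) := by
  have h1 : 0 < 1 - b := by linarith
  induction N with
  | zero => simp [Real.zero_rpow h1.ne']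
  | succ N ih =>
    rw [Finset.sum_Icc_succ_top (by omega)]
    have hN : (0 : ℝ) < ((N + 1 : ℕ) : ℝ) := by positivity
    have h2 := rpow_one_add_le_one_add_mul_self (s := -(1 / ((N + 1 : ℕ) : ℝ)))
      (by
        have : 1 / ((N + 1 : ℕ) : ℝ) ≤ 1 := by
          rw [div_le_one hN]
          push_cast
          have : (0 : ℝ) ≤ N := by positivity
          linarith
        linarith) (p := 1 - b) h1.le (by linarith)
    have h3 : (1 : ℝ) + -(1 / ((N + 1 : ℕ) : ℝ)) = (N : ℝ) / ((N + 1 : ℕ) : ℝ) := by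
      field_simp
      push_cast
      ring
    rw [h3, Real.div_rpow (by positivity) hN.le, div_le_iff₀ (by positivity)] at h2
    have h4 : ((N + 1 : ℕ) : ℝ) ^ (1 - b) = ((N + 1 : ℕ) : ℝ) * ((N + 1 : ℕ) : ℝ) ^ (-b) := by
      rw [sub_eq_add_neg, Real.rpow_add hN, Real.rpow_one]
    have h5 : (1 + (1 - b) * -(1 / ((N + 1 : ℕ) : ℝ))) * ((N + 1 : ℕ) : ℝ) ^ (1 - b) =
        ((N + 1 : ℕ) : ℝ) ^ (1 - b) - (1 - b) * ((N + 1 : ℕ) : ℝ) ^ (-b) := by
      rw [h4]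
      field_simp
      ring
    rw [h5] at h2
    rw [le_div_iff₀ h1] at ih ⊢
    nlinarith

/-- sum over one variable -/
theorem sum_one (a : ℝ) (ha0 : 0 ≤ a) (ha1 : a ≤ 1 / 2) (N x : ℕ) (hx : x ∈ Icc 1 N) :
    ∑ y ∈ (Icc 1 N).filter (fun y => y ≠ x), |(x : ℝ) - (y : ℝ)| ^ (-a) ≤ 4 * (N : ℝ) ^ (1 - a) := by
  rw [Finset.mem_Icc] at hx
  have h0 := sum_rpow a ha0 (by linarith) N
  have hsplit : (Icc 1 N).filter (fun y => y ≠ x) = (Icc 1 N).filter (fun y => y < x) ∪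
      (Icc 1 N).filter (fun y => x < y) := by
    ext y
    simp only [Finset.mem_filter, Finset.mem_union]
    constructor
    · rintro ⟨h1, h2⟩
      rcases lt_or_gt_of_ne h2 with h | h
      · exact Or.inl ⟨h1, h⟩
      · exact Or.inr ⟨h1, h⟩
    · rintro (⟨h1, h2⟩ | ⟨h1, h2⟩)
      · exact ⟨h1, by omega⟩
      · exact ⟨h1, by omega⟩
  have hdisj : Disjoint ((Icc 1 N).filter (fun y => y < x)) ((Icc 1 N).filter (fun y => x < y)) := by
    rw [Finset.disjoint_left]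
    intro y h1 h2
    rw [Finset.mem_filter] at h1 h2
    omega
  rw [hsplit, Finset.sum_union hdisj]
  have h1 : ∑ y ∈ (Icc 1 N).filter (fun y => y < x), |(x : ℝ) - (y : ℝ)| ^ (-a) ≤
      ∑ n ∈ Icc 1 N, (n : ℝ) ^ (-a) := by
    have e1 : ∑ y ∈ (Icc 1 N).filter (fun y => y < x), |(x : ℝ) - (y : ℝ)| ^ (-a) =
        ∑ n ∈ ((Icc 1 N).filter (fun y => y < x)).image (fun y => x - y), (n : ℝ) ^ (-a) := by
      rw [Finset.sum_image]
      · apply Finset.sum_congr rfl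
        intro y hy
        rw [Finset.mem_filter] at hy
        have : ((x - y : ℕ) : ℝ) = (x : ℝ) - (y : ℝ) := by
          rw [Nat.cast_sub hy.2.le]
        rw [this, abs_of_nonneg]
        have : (y : ℝ) ≤ x := by exact_mod_cast hy.2.le
        linarith
      · intro u hu v hv huv
        simp only [Finset.coe_filter, Set.mem_setOf_eq, Finset.mem_Icc] at hu hv
        simp only at huv
        omega
    rw [e1]
    apply Finset.sum_le_sum_of_subset_of_nonneg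
    · intro n hn
      rw [Finset.mem_image] at hn
      obtain ⟨y, hy, rfl⟩ := hn
      rw [Finset.mem_filter, Finset.mem_Icc] at hy
      rw [Finset.mem_Icc]
      omega
    · intro n _ _
      positivity
  have h2 : ∑ y ∈ (Icc 1 N).filter (fun y => x < y), |(x : ℝ) - (y : ℝ)| ^ (-a) ≤
      ∑ n ∈ Icc 1 N, (n : ℝ) ^ (-a) := by
    have e1 : ∑ y ∈ (Icc 1 N).filter (fun y => x < y), |(x : ℝ) - (y : ℝ)| ^ (-a) =
        ∑ n ∈ ((Icc 1 N).filter (fun y => x < y)).image (fun y => y - x), (n : ℝ) ^ (-a) := by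
      rw [Finset.sum_image]
      · apply Finset.sum_congr rfl
        intro y hy
        rw [Finset.mem_filter] at hy
        have : ((y - x : ℕ) : ℝ) = (y : ℝ) - (x : ℝ) := by
          rw [Nat.cast_sub hy.2.le]
        rw [this, abs_sub_comm, abs_of_nonneg]
        have : (x : ℝ) ≤ y := by exact_mod_cast hy.2.le
        linarith
      · intro u hu v hv huv
        simp only [Finset.coe_filter, Set.mem_setOf_eq, Finset.mem_Icc] at hu hv
        simp only at huv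
        omega
    rw [e1]
    apply Finset.sum_le_sum_of_subset_of_nonneg
    · intro n hn
      rw [Finset.mem_image] at hn
      obtain ⟨y, hy, rfl⟩ := hn
      rw [Finset.mem_filter, Finset.mem_Icc] at hy
      rw [Finset.mem_Icc]
      omega
    · intro n _ _
      positivity
  have h3 : (N : ℝ) ^ (1 - a) / (1 - a) ≤ 2 * (N : ℝ) ^ (1 - a) := by
    rw [div_le_iff₀ (by linarith)]
    have : 0 ≤ (N : ℝ) ^ (1 - a) := by positivity
    nlinarith
  linarith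

/-- the kernel of the nondiagonal terms -/
noncomputable def hk (a : ℝ) (k x y z : ℕ) : ℝ :=
  if y ≠ x ∧ z ≠ x then |(x : ℝ) - (y : ℝ)| ^ (-a) * |(x : ℝ) - (z : ℝ)| ^ (-a) * (x : ℝ) ^ (-(a * ((k : ℝ) - 2))) else 0

theorem hk_nonneg (a : ℝ) (k x y z : ℕ) : 0 ≤ hk a k x y z := by
  unfold hk
  split_ifs
  · positivity
  · exact le_refl _

theorem triple (a : ℝ) (k N : ℕ) (hk2 : 2 ≤ k) (ha0 : 0 ≤ a) (hak : a * k ≤ 1) :
    ∑ x ∈ Icc 1 N, ∑ y ∈ Icc 1 N, ∑ z ∈ Icc 1 N, hk a k x y z ≤ 8 * k * (N : ℝ) ^ (3 - a * k) := by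
  have hk0 : (2 : ℝ) ≤ k := by exact_mod_cast hk2
  have ha1 : a ≤ 1 / 2 := by nlinarith
  have h1 : ∀ x ∈ Icc 1 N, ∑ y ∈ Icc 1 N, ∑ z ∈ Icc 1 N, hk a k x y z ≤
      (4 * (N : ℝ) ^ (1 - a)) ^ 2 * (x : ℝ) ^ (-(a * ((k : ℝ) - 2))) := by
    intro x hx
    have h2 : ∑ y ∈ Icc 1 N, ∑ z ∈ Icc 1 N, hk a k x y z =
        (∑ y ∈ (Icc 1 N).filter (fun y => y ≠ x), |(x : ℝ) - (y : ℝ)| ^ (-a)) *
        (∑ z ∈ (Icc 1 N).filter (fun y => y ≠ x), |(x : ℝ) - (z : ℝ)| ^ (-a)) * (x : ℝ) ^ (-(a * ((k : ℝ) - 2))) := by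
      rw [Finset.sum_mul_sum, Finset.sum_mul, Finset.sum_filter]
      apply Finset.sum_congr rfl
      intro y _
      by_cases hy : y ≠ x
      · rw [if_pos hy, Finset.sum_mul, Finset.sum_filter]
        apply Finset.sum_congr rfl
        intro z _
        unfold hk
        by_cases hz : z ≠ x
        · rw [if_pos ⟨hy, hz⟩, if_pos hz]
        · rw [if_neg (fun h => hz h.2), if_neg hz]
      · rw [if_neg hy]
        apply Finset.sum_eq_zero
        intro z _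
        unfold hk
        rw [if_neg (fun h => hy h.1)]
    rw [h2, sq]
    have h3 := sum_one a ha0 ha1 N x hx
    have h4 : 0 ≤ ∑ y ∈ (Icc 1 N).filter (fun y => y ≠ x), |(x : ℝ) - (y : ℝ)| ^ (-a) :=
      Finset.sum_nonneg (fun _ _ => by positivity)
    apply mul_le_mul_of_nonneg_right _ (by positivity)
    exact mul_le_mul h3 h3 h4 (by positivity)
  refine (Finset.sum_le_sum h1).trans ?_
  rw [← Finset.mul_sum]
  have hb0 : 0 ≤ a * ((k : ℝ) - 2) := mul_nonneg ha0 (by linarith)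
  have hk0' : (0 : ℝ) < k := by linarith
  have hb1 : 2 / (k : ℝ) ≤ 1 - a * ((k : ℝ) - 2) := by
    rw [div_le_iff₀ hk0']
    nlinarith
  have hpos : 0 < 2 / (k : ℝ) := by positivity
  have h5 := sum_rpow (a * ((k : ℝ) - 2)) hb0 (by linarith) N
  have h6 : (N : ℝ) ^ (1 - a * ((k : ℝ) - 2)) / (1 - a * ((k : ℝ) - 2)) ≤
      (k : ℝ) / 2 * (N : ℝ) ^ (1 - a * ((k : ℝ) - 2)) := by
    rw [div_le_iff₀ (by linarith)]
    have h7 : 1 ≤ (k : ℝ) / 2 * (1 - a * ((k : ℝ) - 2)) := by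
      calc (1 : ℝ) = (k : ℝ) / 2 * (2 / k) := by field_simp
        _ ≤ _ := mul_le_mul_of_nonneg_left hb1 (by positivity)
    have h8 : 0 ≤ (N : ℝ) ^ (1 - a * ((k : ℝ) - 2)) := by positivity
    nlinarith
  rcases Nat.eq_zero_or_pos N with hN | hN
  · subst hN
    simp
    positivity
  have hN0 : (0 : ℝ) < N := by exact_mod_cast hN
  calc (4 * (N : ℝ) ^ (1 - a)) ^ 2 * ∑ x ∈ Icc 1 N, (x : ℝ) ^ (-(a * ((k : ℝ) - 2)))
      ≤ (4 * (N : ℝ) ^ (1 - a)) ^ 2 * ((k : ℝ) / 2 * (N : ℝ) ^ (1 - a * ((k : ℝ) - 2))) :=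
        mul_le_mul_of_nonneg_left (h5.trans h6) (by positivity)
    _ = 8 * k * ((N : ℝ) ^ (1 - a) * (N : ℝ) ^ (1 - a) * (N : ℝ) ^ (1 - a * ((k : ℝ) - 2))) := by ring
    _ = 8 * k * (N : ℝ) ^ (3 - a * k) := by
        rw [← Real.rpow_add hN0, ← Real.rpow_add hN0]
        congr 2
        ring

end Pool.Agent.Helper34K9.FD
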