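import Pool.Agent.Helper34K9.FD.Mom
import Pool.Agent.Helper10K9.MWS.Cov

/-! # almost everywhere -/

set_option autoImplicit false

open Finset MeasureTheory

namespace Pool.Agent.Helper34K9.FD

open Pool.Agent.W928.MW (e e_add e_norm e_cont prs ev_pow ev_log)
open Pool.Agent.Helper10K9.MWS (smc smc_le maxc HoldsK)

theorem meas4 (μ : Measure ℝ) [IsFiniteMeasure μ] (a B : ℝ) (ha : 0 ≤ a) (hB : 0 ≤ B)
    (c : ℕ → ℂ) (hc : ∀ n, ‖c n‖ ≤ 1) (k N : ℕ) (hd : DecayR μ a B (2 * (N : ℤ) ^ k)) (hk2 : 2 ≤ k) (hak : a * k ≤ 1) (lm : ℝ) (hl : 0 < lm) :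
    μ {t : ℝ | ∃ ξ : ℝ, lm ≤ ‖smc c k N t ξ‖} ≤
      ENNReal.ofReal ((2 * (N : ℝ) + 1) * (2 * (N : ℝ) ^ 2 * μ.real Set.univ + 8 * k * B * (N : ℝ) ^ (3 - a * k)) /
        lm ^ 4) := by
  set ρ : ℝ := lm ^ 4 / (2 * (N : ℝ) + 1) with hρ
  have hN0 : (0 : ℝ) < 2 * (N : ℝ) + 1 := by positivity
  have hρ0 : 0 < ρ := by positivity
  have hsub : {t : ℝ | ∃ ξ : ℝ, lm ≤ ‖smc c k N t ξ‖} ⊆ {t : ℝ | ρ ≤ QF c k N t} := by
    rintro t ⟨ξ, hξ⟩
    have h1 := sup4 c k N t ξ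
    have h2 : lm ^ 4 ≤ ‖smc c k N t ξ‖ ^ 4 := pow_le_pow_left₀ hl.le hξ 4
    change ρ ≤ QF c k N t
    rw [hρ, div_le_iff₀ hN0]
    linarith
  have hint : Integrable (QF c k N) μ := by
    unfold QF
    refine integrable_finsetSum _ (fun m _ => ?_)
    refine Integrable.of_bound ((((pq_cont c k N m).norm).pow 2).aestronglyMeasurable) (((prs N m).card : ℝ) ^ 2)
      (Filter.Eventually.of_forall (fun t => ?_))
    rw [Real.norm_of_nonneg (by positivity)]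
    apply pow_le_pow_left₀ (norm_nonneg _)
    unfold pq
    refine (norm_sum_le _ _).trans ?_
    calc ∑ z ∈ prs N m, ‖(c z.1 * c z.2) * e (t * (lam k z : ℝ))‖ ≤ ∑ _z ∈ prs N m, (1 : ℝ) := by
          apply Finset.sum_le_sum
          intro z _
          rw [norm_mul, e_norm, mul_one, norm_mul]
          exact mul_le_one₀ (hc _) (norm_nonneg _) (hc _)
      _ = _ := by simp
  have h3 := mul_meas_ge_le_integral_of_nonneg (μ := μ) (f := QF c k N)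
    (Filter.Eventually.of_forall (QF_nonneg c k N)) hint ρ
  have h3' := h3.trans (int_QF μ a B ha hB c hc k N hd hk2 hak)
  refine (measure_mono hsub).trans ?_
  rw [← ENNReal.ofReal_toReal (measure_ne_top μ _)]
  apply ENNReal.ofReal_le_ofReal
  have h6 : (μ {t : ℝ | ρ ≤ QF c k N t}).toReal ≤
      (2 * (N : ℝ) ^ 2 * μ.real Set.univ + 8 * k * B * (N : ℝ) ^ (3 - a * k)) / ρ := by
    rw [le_div_iff₀ hρ0, mul_comm]
    exact h3'
  refine h6.trans (le_of_eq ?_)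
  rw [hρ]
  field_simp

/-- incomplete sums included -/
theorem meas_max (μ : Measure ℝ) [IsFiniteMeasure μ] (a B : ℝ) (ha : 0 ≤ a) (hB : 0 ≤ B)
    (c : ℕ → ℂ) (hc : ∀ n, ‖c n‖ ≤ 1) (k N : ℕ) (hd : DecayR μ a B (2 * (N : ℤ) ^ k)) (hk2 : 2 ≤ k) (hak : a * k ≤ 1) (hN : 1 ≤ N) (lm : ℝ) (hl : 0 < lm) :
    μ {t : ℝ | ∃ M : ℕ, M ≤ N ∧ ∃ ξ : ℝ, lm < ‖smc c k M t ξ‖} ≤
      ENNReal.ofReal ((2 * (N : ℝ) + 1) * (2 + Real.log N) ^ 4 *
        (2 * (N : ℝ) ^ 2 * μ.real Set.univ + 8 * k * B * (N : ℝ) ^ (3 - a * k)) / lm ^ 4) := by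
  have hN' : (1 : ℝ) ≤ N := by exact_mod_cast hN
  have hL : 0 < 2 + Real.log N := by
    have := Real.log_nonneg hN'
    linarith
  have hsub : {t : ℝ | ∃ M : ℕ, M ≤ N ∧ ∃ ξ : ℝ, lm < ‖smc c k M t ξ‖} ⊆
      {t : ℝ | ∃ ξ : ℝ, lm / (2 + Real.log N) ≤ ‖smc c k N t ξ‖} := by
    rintro t ⟨M, hM, ξ, hξ⟩
    by_contra hcon
    simp only [Set.mem_ofPred_eq, not_exists, not_le] at hcon
    have h1 := maxc c k N M t (lm / (2 + Real.log N)) hN hM (fun η => (hcon η).le) ξ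
    have h2 : (2 + Real.log N) * (lm / (2 + Real.log N)) = lm := by field_simp
    rw [h2] at h1
    linarith
  refine (measure_mono hsub).trans ?_
  refine (meas4 μ a B ha hB c hc k N hd hk2 hak _ (by positivity)).trans (le_of_eq ?_)
  congr 1
  field_simp

/-- the decay hypothesis -/
def Decay (μ : Measure ℝ) (a B : ℝ) : Prop := ∀ n : ℤ, n ≠ 0 → FT μ n ≤ B * |(n : ℝ)| ^ (-a)

/-- bad points at scale `2 ^ i` -/
def bad (c : ℕ → ℂ) (k : ℕ) (κ : ℝ) (i : ℕ) : Set ℝ :=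
  {t : ℝ | ∃ M : ℕ, ∃ ξ : ℝ, M ≤ 2 ^ i ∧ 2 ^ i ≤ 2 * M ∧ (M : ℝ) ^ κ < ‖smc c k M t ξ‖}

theorem bad_small (μ : Measure ℝ) [IsFiniteMeasure μ] (a B : ℝ) (ha : 0 ≤ a) (hB : 0 ≤ B) (hd : Decay μ a B)
    (c : ℕ → ℂ) (hc : ∀ n, ‖c n‖ ≤ 1) (k : ℕ) (hk2 : 2 ≤ k) (hak : a * k ≤ 1) (κ δ : ℝ) (hδ : 0 < δ)
    (hκ : 4 * κ = 4 - a * k + 2 * δ) :
    ∃ i0 : ℕ, ∀ i : ℕ, i0 ≤ i → μ (bad c k κ i) ≤ ENNReal.ofReal (((2 : ℝ) ^ (-δ)) ^ i) := by
  have hκ0 : 0 ≤ κ := by linarith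
  have hM0 : 0 ≤ μ.real Set.univ := measureReal_nonneg
  obtain ⟨i1, h1⟩ := ev_log (δ / 8) (by positivity) (1 / 2)
  obtain ⟨i2, h2⟩ := ev_pow (δ / 2) (by positivity) (3 * (2 * μ.real Set.univ + 8 * k * B) * ((2 : ℝ) ^ κ) ^ 4)
  refine ⟨i1 + i2, fun i hi => ?_⟩
  have g1 := h1 i (by omega)
  have g2 := h2 i (by omega)
  set X : ℝ := (2 : ℝ) ^ i with hX
  have hX1 : (1 : ℝ) ≤ X := one_le_pow₀ (by norm_num)
  have hX0 : (0 : ℝ) < X := by positivity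
  have hNX : (((2 ^ i : ℕ) : ℕ) : ℝ) = X := by push_cast; rfl
  have hlog0 : 0 ≤ Real.log X := Real.log_nonneg hX1
  have hsub : bad c k κ i ⊆ {t : ℝ | ∃ M : ℕ, M ≤ 2 ^ i ∧ ∃ ξ : ℝ, (X / 2) ^ κ / 1 < ‖smc c k M t ξ‖} := by
    rintro t ⟨M, ξ, hM1, hM2, hlt⟩
    refine ⟨M, hM1, ξ, lt_of_le_of_lt ?_ hlt⟩
    have h6 : X / 2 ≤ (M : ℝ) := by
      have : ((2 ^ i : ℕ) : ℝ) ≤ ((2 * M : ℕ) : ℝ) := by exact_mod_cast hM2
      rw [hNX] at this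
      push_cast at this
      linarith
    rw [div_one]
    exact Real.rpow_le_rpow (by positivity) h6 hκ0
  refine (measure_mono hsub).trans ?_
  have h3 := meas_max μ a B ha hB c hc k (2 ^ i) (fun n hn _ => hd n hn) hk2 hak Nat.one_le_two_pow ((X / 2) ^ κ / 1) (by positivity)
  rw [hNX] at h3
  refine h3.trans (ENNReal.ofReal_le_ofReal ?_)
  rw [div_one]
  have e1 : ((X / 2) ^ κ) ^ 4 = X ^ (4 * κ) / ((2 : ℝ) ^ κ) ^ 4 := by
    rw [Real.div_rpow hX0.le (by norm_num), div_pow, ← Real.rpow_natCast (X ^ κ) 4, ← Real.rpow_mul hX0.le]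
    congr 2
    push_cast
    ring
  have e2 : (2 + Real.log X) ^ 4 ≤ X ^ (δ / 2) := by
    have h5 : 2 + Real.log X ≤ X ^ (δ / 8) := by linarith
    calc (2 + Real.log X) ^ 4 ≤ (X ^ (δ / 8)) ^ 4 := pow_le_pow_left₀ (by linarith) h5 4
      _ = X ^ (δ / 2) := by
          rw [← Real.rpow_natCast, ← Real.rpow_mul hX0.le]
          congr 1
          push_cast
          ring
  have e3 : 2 * X ^ 2 * μ.real Set.univ + 8 * k * B * X ^ (3 - a * k) ≤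
      (2 * μ.real Set.univ + 8 * k * B) * X ^ (3 - a * k) := by
    have h5 : X ^ 2 ≤ X ^ (3 - a * k) := by
      rw [← Real.rpow_natCast X 2]
      apply Real.rpow_le_rpow_of_exponent_le hX1
      push_cast
      linarith
    nlinarith
  have e4 : 2 * X + 1 ≤ 3 * X := by linarith
  have hp : (0 : ℝ) ≤ 2 * μ.real Set.univ + 8 * k * B := by positivity
  have e5 : (2 * X + 1) * (2 + Real.log X) ^ 4 * (2 * X ^ 2 * μ.real Set.univ + 8 * k * B * X ^ (3 - a * k)) ≤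
      (3 * X) * X ^ (δ / 2) * ((2 * μ.real Set.univ + 8 * k * B) * X ^ (3 - a * k)) := by
    gcongr
  have e6 : ((2 : ℝ) ^ (-δ)) ^ i = X ^ (-δ) := by
    rw [hX, ← Real.rpow_natCast, ← Real.rpow_natCast, ← Real.rpow_mul (by norm_num), ← Real.rpow_mul (by norm_num)]
    congr 1
    ring
  rw [e6, e1]
  rw [div_div_eq_mul_div, div_le_iff₀ (by positivity)]
  calc (2 * X + 1) * (2 + Real.log X) ^ 4 * (2 * X ^ 2 * μ.real Set.univ + 8 * k * B * X ^ (3 - a * k)) *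
        ((2 : ℝ) ^ κ) ^ 4
      ≤ ((3 * X) * X ^ (δ / 2) * ((2 * μ.real Set.univ + 8 * k * B) * X ^ (3 - a * k))) * ((2 : ℝ) ^ κ) ^ 4 :=
        mul_le_mul_of_nonneg_right e5 (by positivity)
    _ = (3 * (2 * μ.real Set.univ + 8 * k * B) * ((2 : ℝ) ^ κ) ^ 4) * (X ^ (1 : ℝ) * X ^ (δ / 2) * X ^ (3 - a * k)) := by
        rw [Real.rpow_one]; ring
    _ ≤ X ^ (δ / 2) * (X ^ (1 : ℝ) * X ^ (δ / 2) * X ^ (3 - a * k)) :=
        mul_le_mul_of_nonneg_right g2 (by positivity)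
    _ = X ^ (-δ) * X ^ (4 * κ) := by
        rw [← Real.rpow_add hX0, ← Real.rpow_add hX0, ← Real.rpow_add hX0, ← Real.rpow_add hX0]
        congr 1
        linarith

theorem ae_holds1 (μ : Measure ℝ) [IsFiniteMeasure μ] (a B : ℝ) (ha : 0 ≤ a) (hB : 0 ≤ B) (hd : Decay μ a B)
    (c : ℕ → ℂ) (hc : ∀ n, ‖c n‖ ≤ 1) (k : ℕ) (hk2 : 2 ≤ k) (hak : a * k ≤ 1) (κ : ℝ) (hκ : 1 - a * k / 4 < κ) :
    ∀ᵐ t ∂μ, ∃ C : ℝ, HoldsK c k κ C t := by
  obtain ⟨i0, h0⟩ := bad_small μ a B ha hB hd c hc k hk2 hak κ ((4 * κ - 4 + a * k) / 2) (by linarith) (by ring)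
  set δ : ℝ := (4 * κ - 4 + a * k) / 2 with hδ
  have hδ0 : 0 < δ := by rw [hδ]; linarith
  have hκ0 : 0 ≤ κ := by linarith
  have hr0 : (0 : ℝ) < (2 : ℝ) ^ (-δ) := by positivity
  have hr1 : (2 : ℝ) ^ (-δ) < 1 := Real.rpow_lt_one_of_one_lt_of_neg (by norm_num) (by linarith)
  have hsum : Summable (fun i : ℕ => ((2 : ℝ) ^ (-δ)) ^ (i + i0)) :=
    (summable_nat_add_iff i0).mpr (summable_geometric_of_lt_one hr0.le hr1)
  have hfin : ∑' i : ℕ, μ (bad c k κ (i + i0)) ≠ ⊤ := by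
    refine ne_top_of_le_ne_top hsum.tsum_ofReal_ne_top ?_
    exact ENNReal.tsum_le_tsum (fun i => h0 (i + i0) (by omega))
  have h1 := ae_eventually_notMem hfin
  filter_upwards [h1] with t ht
  rw [Filter.eventually_atTop] at ht
  obtain ⟨i1, hi1⟩ := ht
  refine ⟨(2 : ℝ) ^ (i1 + i0) + 1, ?_⟩
  intro N hN2' ξ
  have hN : 1 ≤ N := by omega
  have hN' : (1 : ℝ) ≤ (N : ℝ) := by exact_mod_cast hN
  have h1 : 1 ≤ (N : ℝ) ^ κ := Real.one_le_rpow hN' hκ0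
  have hp : (0 : ℝ) < (2 : ℝ) ^ (i1 + i0) := by positivity
  rcases le_total N (2 ^ (i1 + i0)) with hN2 | hN2
  · have h4 : (N : ℝ) ≤ (2 : ℝ) ^ (i1 + i0) := by exact_mod_cast hN2
    refine (smc_le c hc k N t ξ).trans ?_
    nlinarith
  · obtain ⟨i, hi1', hi2⟩ : ∃ i : ℕ, N ≤ 2 ^ i ∧ 2 ^ i ≤ 2 * N := by
      refine ⟨Nat.log 2 N + 1, (Nat.lt_pow_succ_log_self (by norm_num) N).le, ?_⟩
      have := Nat.pow_log_le_self 2 (show N ≠ 0 by omega)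
      rw [pow_succ]
      omega
    have hii : i1 + i0 ≤ i := by
      have : 2 ^ (i1 + i0) ≤ 2 ^ i := hN2.trans hi1'
      exact (Nat.pow_le_pow_iff_right (by norm_num)).mp this
    have h5 := hi1 (i - i0) (by omega)
    rw [Nat.sub_add_cancel (by omega)] at h5
    have h6 : ‖smc c k N t ξ‖ ≤ (N : ℝ) ^ κ := by
      by_contra h7
      push Not at h7
      exact h5 ⟨N, ξ, hi1', hi2, h7⟩
    nlinarith

/-- without the restriction `a k ≤ 1` -/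
theorem ae_holds (μ : Measure ℝ) [IsFiniteMeasure μ] (a B : ℝ) (ha : 0 ≤ a) (hd : Decay μ a B)
    (c : ℕ → ℂ) (hc : ∀ n, ‖c n‖ ≤ 1) (k : ℕ) (hk2 : 2 ≤ k) (κ : ℝ) (hκ : 1 - min 1 (a * k) / 4 < κ) :
    ∀ᵐ t ∂μ, ∃ C : ℝ, HoldsK c k κ C t := by
  have hB : 0 ≤ B := by
    have h1 := hd 1 one_ne_zero
    have h2 : 0 ≤ FT μ 1 := norm_nonneg _
    rw [Int.cast_one, abs_one, Real.one_rpow, mul_one] at h1
    linarith
  have hk0 : (0 : ℝ) < k := by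
    have : 0 < k := by omega
    exact_mod_cast this
  set a' : ℝ := min 1 (a * k) / k with ha'
  have ha'0 : 0 ≤ a' := by
    rw [ha']
    apply div_nonneg _ hk0.le
    exact le_min zero_le_one (by positivity)
  have ha'k : a' * k = min 1 (a * k) := by rw [ha']; field_simp
  have ha'a : a' ≤ a := by
    rw [ha', div_le_iff₀ hk0]
    exact min_le_right _ _
  have hd' : Decay μ a' B := by
    intro n hn
    refine (hd n hn).trans ?_
    apply mul_le_mul_of_nonneg_left _ hB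
    apply Real.rpow_le_rpow_of_exponent_le _ (by linarith)
    have : (1 : ℤ) ≤ |n| := Int.one_le_abs hn
    exact_mod_cast this
  exact ae_holds1 μ a' B ha'0 hB hd' c hc k hk2 (by rw [ha'k]; exact min_le_left _ _) κ (by rw [ha'k]; exact hκ)

end Pool.Agent.Helper34K9.FD
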