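import Pool.Agent.Helper34K9.FD.Cnt
import Pool.Agent.Helper10K9.MWS.Coef

/-! # fourth moment with respect to a measure -/

set_option autoImplicit false

open Finset MeasureTheory

namespace Pool.Agent.Helper34K9.FD

open Pool.Agent.W928.MW (e e_add e_norm e_cont prs)
open Pool.Agent.Helper10K9.MWS (smc smc_le)

/-- the integer `z.1 ^ k + z.2 ^ k` -/
def lam (k : ℕ) (z : ℕ × ℕ) : ℤ := ((z.1 ^ k + z.2 ^ k : ℕ) : ℤ)

noncomputable def pq (c : ℕ → ℂ) (k N m : ℕ) (t : ℝ) : ℂ :=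
  ∑ z ∈ prs N m, (c z.1 * c z.2) * e (t * (lam k z : ℝ))

noncomputable def QF (c : ℕ → ℂ) (k N : ℕ) (t : ℝ) : ℝ := ∑ m ∈ range (2 * N + 1), ‖pq c k N m t‖ ^ 2

theorem smc_sq (c : ℕ → ℂ) (k N : ℕ) (t ξ : ℝ) :
    smc c k N t ξ ^ 2 = ∑ m ∈ range (2 * N + 1), e (ξ * m) * pq c k N m t := by
  have h1 : smc c k N t ξ ^ 2 = ∑ z ∈ (Icc 1 N) ×ˢ (Icc 1 N),
      e (ξ * ((z.1 + z.2 : ℕ) : ℝ)) * ((c z.1 * c z.2) * e (t * (lam k z : ℝ))) := by
    rw [sq]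
    unfold Pool.Agent.Helper10K9.MWS.smc
    rw [Finset.sum_mul_sum, ← Finset.sum_product']
    apply Finset.sum_congr rfl
    intro z _
    have h2 : e (ξ * ((z.1 + z.2 : ℕ) : ℝ)) * ((c z.1 * c z.2) * e (t * (lam k z : ℝ))) =
        (c z.1 * c z.2) * e (ξ * ((z.1 + z.2 : ℕ) : ℝ) + t * (lam k z : ℝ)) := by
      rw [e_add]; ring
    have h3 : c z.1 * e (t * (z.1 : ℝ) ^ k + ξ * (z.1 : ℝ)) * (c z.2 * e (t * (z.2 : ℝ) ^ k + ξ * (z.2 : ℝ))) =
        (c z.1 * c z.2) * e ((t * (z.1 : ℝ) ^ k + ξ * (z.1 : ℝ)) + (t * (z.2 : ℝ) ^ k + ξ * (z.2 : ℝ))) := by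
      rw [e_add (t * (z.1 : ℝ) ^ k + ξ * (z.1 : ℝ)) (t * (z.2 : ℝ) ^ k + ξ * (z.2 : ℝ))]; ring
    rw [h2, h3]
    congr 2
    unfold lam
    push_cast
    ring
  rw [h1, ← Finset.sum_fiberwise_of_maps_to (s := (Icc 1 N) ×ˢ (Icc 1 N)) (t := range (2 * N + 1))
    (g := fun z : ℕ × ℕ => z.1 + z.2)]
  · apply Finset.sum_congr rfl
    intro m _
    unfold pq Pool.Agent.W928.MW.prs
    rw [Finset.mul_sum]
    apply Finset.sum_congr rfl
    intro z hz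
    rw [Finset.mem_filter] at hz
    rw [hz.2]
  · intro z hz
    rw [Finset.mem_product, Finset.mem_Icc, Finset.mem_Icc] at hz
    rw [Finset.mem_range]
    omega

theorem sup4 (c : ℕ → ℂ) (k N : ℕ) (t ξ : ℝ) : ‖smc c k N t ξ‖ ^ 4 ≤ (2 * (N : ℝ) + 1) * QF c k N t := by
  have h1 : ‖smc c k N t ξ‖ ^ 4 = ‖smc c k N t ξ ^ 2‖ ^ 2 := by
    rw [norm_pow]; ring
  rw [h1, smc_sq]
  have h2 : ‖∑ m ∈ range (2 * N + 1), e (ξ * m) * pq c k N m t‖ ≤ ∑ m ∈ range (2 * N + 1), ‖pq c k N m t‖ := by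
    refine (norm_sum_le _ _).trans (le_of_eq ?_)
    apply Finset.sum_congr rfl
    intro m _
    rw [norm_mul, e_norm, one_mul]
  have h3 := sq_sum_le_card_mul_sum_sq (s := range (2 * N + 1)) (f := fun m => ‖pq c k N m t‖)
  rw [Finset.card_range] at h3
  have h4 : (((2 * N + 1 : ℕ) : ℝ)) = 2 * (N : ℝ) + 1 := by push_cast; ring
  rw [h4] at h3
  refine le_trans ?_ h3
  exact pow_le_pow_left₀ (norm_nonneg _) h2 2

theorem pq_cont (c : ℕ → ℂ) (k N m : ℕ) : Continuous (pq c k N m) := by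
  unfold pq
  refine continuous_finsetSum _ (fun z _ => ?_)
  exact continuous_const.mul (e_cont.comp (by fun_prop))

theorem QF_cont (c : ℕ → ℂ) (k N : ℕ) : Continuous (QF c k N) := by
  unfold QF
  refine continuous_finsetSum _ (fun m _ => ?_)
  exact ((pq_cont c k N m).norm).pow 2

theorem QF_nonneg (c : ℕ → ℂ) (k N : ℕ) (t : ℝ) : 0 ≤ QF c k N t := by
  unfold QF
  positivity

/-- `|∫ e(n t) dμ(t)|` -/
noncomputable def FT (μ : Measure ℝ) (n : ℤ) : ℝ := ‖∫ t, e (t * (n : ℝ)) ∂μ‖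

theorem int_e_able (μ : Measure ℝ) [IsFiniteMeasure μ] (n : ℤ) : Integrable (fun t : ℝ => e (t * (n : ℝ))) μ := by
  refine Integrable.of_bound ?_ 1 (Filter.Eventually.of_forall (fun t => (e_norm _).le))
  exact (e_cont.comp (by fun_prop)).aestronglyMeasurable

theorem FT_le (μ : Measure ℝ) [IsFiniteMeasure μ] (n : ℤ) : FT μ n ≤ μ.real Set.univ := by
  unfold FT
  refine (norm_integral_le_of_norm_le_const (C := 1) (Filter.Eventually.of_forall (fun t => (e_norm _).le))).trans ?_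
  rw [one_mul]

theorem int_pq (μ : Measure ℝ) [IsFiniteMeasure μ] (c : ℕ → ℂ) (hc : ∀ n, ‖c n‖ ≤ 1) (k N m : ℕ) :
    ∫ t, ‖pq c k N m t‖ ^ 2 ∂μ ≤ ∑ z ∈ prs N m, ∑ w ∈ prs N m, FT μ (lam k z - lam k w) := by
  have h1 : ∀ t : ℝ, ((‖pq c k N m t‖ ^ 2 : ℝ) : ℂ) = ∑ z ∈ prs N m, ∑ w ∈ prs N m,
      ((c z.1 * c z.2) * (starRingEnd ℂ) (c w.1 * c w.2)) * e (t * ((lam k z - lam k w : ℤ) : ℝ)) := by
    intro t
    have h2 : ((‖pq c k N m t‖ ^ 2 : ℝ) : ℂ) = pq c k N m t * (starRingEnd ℂ) (pq c k N m t) := by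
      rw [Complex.mul_conj, Complex.normSq_eq_norm_sq]
    rw [h2]
    unfold pq
    rw [map_sum, Finset.sum_mul_sum]
    apply Finset.sum_congr rfl
    intro z _
    apply Finset.sum_congr rfl
    intro w _
    rw [map_mul, Pool.Agent.TH181.MX.e_conj]
    have : e (t * ((lam k z - lam k w : ℤ) : ℝ)) = e (t * (lam k z : ℝ)) * e (-(t * (lam k w : ℝ))) := by
      rw [← e_add]; congr 1; push_cast; ring
    rw [this]; ring
  have h0 : 0 ≤ ∫ t, ‖pq c k N m t‖ ^ 2 ∂μ := integral_nonneg (fun t => by positivity)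
  have h3 : ∫ t, ‖pq c k N m t‖ ^ 2 ∂μ = ‖∫ t, ((‖pq c k N m t‖ ^ 2 : ℝ) : ℂ) ∂μ‖ := by
    rw [integral_complex_ofReal, Complex.norm_real, Real.norm_of_nonneg h0]
  rw [h3]
  simp_rw [h1]
  have hI : ∀ z w : ℕ × ℕ, Integrable (fun t : ℝ => ((c z.1 * c z.2) * (starRingEnd ℂ) (c w.1 * c w.2)) *
      e (t * ((lam k z - lam k w : ℤ) : ℝ))) μ := fun z w => (int_e_able μ _).const_mul _
  rw [integral_finsetSum]
  · refine (norm_sum_le _ _).trans ?_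
    apply Finset.sum_le_sum
    intro z _
    rw [integral_finsetSum]
    · refine (norm_sum_le _ _).trans ?_
      apply Finset.sum_le_sum
      intro w _
      rw [integral_const_mul, norm_mul]
      have h5 : ‖(c z.1 * c z.2) * (starRingEnd ℂ) (c w.1 * c w.2)‖ ≤ 1 := by
        rw [norm_mul, Complex.norm_conj, norm_mul, norm_mul]
        exact mul_le_one₀ (mul_le_one₀ (hc _) (norm_nonneg _) (hc _)) (by positivity)
          (mul_le_one₀ (hc _) (norm_nonneg _) (hc _))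
      have h6 : 0 ≤ FT μ (lam k z - lam k w) := norm_nonneg _
      calc _ ≤ 1 * FT μ (lam k z - lam k w) := mul_le_mul_of_nonneg_right h5 h6
        _ = _ := one_mul _
    · intro w _
      exact hI z w
  · intro z _
    exact integrable_finsetSum _ (fun w _ => hI z w)

/-- the decay hypothesis up to `R` -/
def DecayR (μ : Measure ℝ) (a B : ℝ) (R : ℤ) : Prop := ∀ n : ℤ, n ≠ 0 → |n| ≤ R → FT μ n ≤ B * |(n : ℝ)| ^ (-a)

theorem lam_abs (k N : ℕ) (z w : ℕ × ℕ) (hz1 : z.1 ≤ N) (hz2 : z.2 ≤ N) (hw1 : w.1 ≤ N) (hw2 : w.2 ≤ N) :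
    |lam k z - lam k w| ≤ 2 * (N : ℤ) ^ k := by
  have h : ∀ x : ℕ, x ≤ N → ((x : ℤ)) ^ k ≤ (N : ℤ) ^ k := by
    intro x hx
    exact pow_le_pow_left₀ (by positivity) (by exact_mod_cast hx) k
  have a1 := h _ hz1
  have a2 := h _ hz2
  have a3 := h _ hw1
  have a4 := h _ hw2
  have b1 : (0 : ℤ) ≤ (z.1 : ℤ) ^ k := by positivity
  have b2 : (0 : ℤ) ≤ (z.2 : ℤ) ^ k := by positivity
  have b3 : (0 : ℤ) ≤ (w.1 : ℤ) ^ k := by positivity
  have b4 : (0 : ℤ) ≤ (w.2 : ℤ) ^ k := by positivity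
  unfold lam
  push_cast
  rw [abs_le]
  constructor <;> linarith

theorem term_le (μ : Measure ℝ) [IsFiniteMeasure μ] (a B : ℝ) (ha : 0 ≤ a) (hB : 0 ≤ B) (k N : ℕ) (hd : DecayR μ a B (2 * (N : ℤ) ^ k))
    (hk2 : 2 ≤ k) (z w : ℕ × ℕ) (hz : z ∈ (Icc 1 N) ×ˢ (Icc 1 N)) (hw : w ∈ prs N (z.1 + z.2)) :
    FT μ (lam k z - lam k w) ≤ (if w = z then μ.real Set.univ else 0) +
      (if w = (z.2, z.1) then μ.real Set.univ else 0) + B * hk a k z.1 w.1 w.2 := by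
  unfold Pool.Agent.W928.MW.prs at hw
  rw [Finset.mem_filter, Finset.mem_product, Finset.mem_Icc, Finset.mem_Icc] at hw
  rw [Finset.mem_product, Finset.mem_Icc, Finset.mem_Icc] at hz
  obtain ⟨⟨⟨hw1, hw2⟩, hw3, hw4⟩, hw5⟩ := hw
  obtain ⟨⟨hz1, hz2⟩, hz3, hz4⟩ := hz
  have hM : 0 ≤ μ.real Set.univ := measureReal_nonneg
  have hn : 0 ≤ B * hk a k z.1 w.1 w.2 := mul_nonneg hB (hk_nonneg _ _ _ _ _)
  have e1 : (0:ℝ) ≤ (if w = z then μ.real Set.univ else 0) := by split_ifs <;> linarith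
  have e2 : (0:ℝ) ≤ (if w = (z.2, z.1) then μ.real Set.univ else 0) := by split_ifs <;> linarith
  have hF := FT_le μ (lam k z - lam k w)
  by_cases c1 : w.1 = z.1
  · have c2 : w = z := by
      ext
      · exact c1
      · omega
    rw [if_pos c2]
    linarith
  by_cases c3 : w.2 = z.1
  · have c4 : w = (z.2, z.1) := by
      ext
      · simp only; omega
      · exact c3
    rw [if_pos c4]
    linarith
  have hdio := Pool.Agent.W225.MWD.t k z.1 z.2 w.1 w.2 hk2 hw5.symm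
  set Mx : ℝ := max (max (z.1 : ℝ) (z.2 : ℝ)) (max (w.1 : ℝ) (w.2 : ℝ)) with hMx
  have hz1' : (1 : ℝ) ≤ (z.1 : ℝ) := by exact_mod_cast hz1
  have hx0 : (0 : ℝ) < (z.1 : ℝ) := by linarith
  have hMyx : (z.1 : ℝ) ≤ Mx := (le_max_left _ _).trans (le_max_left _ _)
  have a1 : 0 < |(z.1 : ℝ) - (w.1 : ℝ)| := by
    rw [abs_pos, sub_ne_zero]
    intro h
    exact c1 (by exact_mod_cast h.symm)
  have a2 : 0 < |(z.1 : ℝ) - (w.2 : ℝ)| := by
    rw [abs_pos, sub_ne_zero]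
    intro h
    exact c3 (by exact_mod_cast h.symm)
  have a4 : |(z.1 : ℝ) - (w.1 : ℝ)| * |(z.1 : ℝ) - (w.2 : ℝ)| * (z.1 : ℝ) ^ (k - 2) ≤
      |((lam k z - lam k w : ℤ) : ℝ)| := by
    have b1 : |(z.1 : ℝ) - (w.1 : ℝ)| * |(z.1 : ℝ) - (w.2 : ℝ)| * (z.1 : ℝ) ^ (k - 2) ≤
        |(z.1 : ℝ) - (w.1 : ℝ)| * |(z.1 : ℝ) - (w.2 : ℝ)| * Mx ^ (k - 2) :=
      mul_le_mul_of_nonneg_left (pow_le_pow_left₀ hx0.le hMyx _) (by positivity)
    have b2 : ((lam k z - lam k w : ℤ) : ℝ) = (z.1 : ℝ) ^ k + (z.2 : ℝ) ^ k - (w.1 : ℝ) ^ k - (w.2 : ℝ) ^ k := by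
      unfold lam
      push_cast
      ring
    rw [b2]
    exact b1.trans hdio
  have a5 : 0 < |(z.1 : ℝ) - (w.1 : ℝ)| * |(z.1 : ℝ) - (w.2 : ℝ)| * (z.1 : ℝ) ^ (k - 2) := by positivity
  have a6 : lam k z - lam k w ≠ 0 := by
    intro h
    rw [h, Int.cast_zero, abs_zero] at a4
    linarith
  have a7 := hd _ a6 (lam_abs k N z w hz2 hz4 hw2 hw4)
  have a8 : |((lam k z - lam k w : ℤ) : ℝ)| ^ (-a) ≤ hk a k z.1 w.1 w.2 := by
    have b1 : |((lam k z - lam k w : ℤ) : ℝ)| ^ (-a) ≤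
        (|(z.1 : ℝ) - (w.1 : ℝ)| * |(z.1 : ℝ) - (w.2 : ℝ)| * (z.1 : ℝ) ^ (k - 2)) ^ (-a) :=
      Real.rpow_le_rpow_of_nonpos a5 a4 (by linarith)
    refine b1.trans (le_of_eq ?_)
    unfold hk
    rw [if_pos ⟨c1, c3⟩, Real.mul_rpow (by positivity) (by positivity), Real.mul_rpow (by positivity) (by positivity),
      ← Real.rpow_natCast (z.1 : ℝ) (k - 2), ← Real.rpow_mul hx0.le]
    congr 2
    rw [Nat.cast_sub hk2]
    push_cast
    ring
  have a9 : B * |((lam k z - lam k w : ℤ) : ℝ)| ^ (-a) ≤ B * hk a k z.1 w.1 w.2 := mul_le_mul_of_nonneg_left a8 hB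
  linarith

theorem sum_hk (a : ℝ) (k N : ℕ) : ∑ z ∈ (Icc 1 N) ×ˢ (Icc 1 N), ∑ w ∈ prs N (z.1 + z.2), hk a k z.1 w.1 w.2 ≤
    ∑ x ∈ Icc 1 N, ∑ y ∈ Icc 1 N, ∑ z ∈ Icc 1 N, hk a k x y z := by
  rw [Finset.sum_product]
  apply Finset.sum_le_sum
  intro x _
  have h1 : ∑ x' ∈ Icc 1 N, ∑ w ∈ prs N (x + x'), hk a k x w.1 w.2 =
      ∑ w ∈ (Icc 1 N) ×ˢ (Icc 1 N), ∑ x' ∈ (Icc 1 N).filter (fun x' => w.1 + w.2 = x + x'), hk a k x w.1 w.2 := by
    have e1 : ∀ x' ∈ Icc 1 N, ∑ w ∈ prs N (x + x'), hk a k x w.1 w.2 =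
        ∑ w ∈ (Icc 1 N) ×ˢ (Icc 1 N), if w.1 + w.2 = x + x' then hk a k x w.1 w.2 else 0 := by
      intro x' _
      unfold Pool.Agent.W928.MW.prs
      rw [Finset.sum_filter]
    rw [Finset.sum_congr rfl e1, Finset.sum_comm]
    apply Finset.sum_congr rfl
    intro w _
    rw [Finset.sum_filter]
  have h2 : ∑ x' ∈ Icc 1 N, ∑ w ∈ prs N (x + x'), hk a k x w.1 w.2 ≤
      ∑ w ∈ (Icc 1 N) ×ˢ (Icc 1 N), hk a k x w.1 w.2 := by
    rw [h1]
    apply Finset.sum_le_sum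
    intro w _
    rw [Finset.sum_const, nsmul_eq_mul]
    have h3 : ((Icc 1 N).filter (fun x' => w.1 + w.2 = x + x')).card ≤ 1 := by
      rw [Finset.card_le_one]
      intro a ha b hb
      rw [Finset.mem_filter] at ha hb
      omega
    have h4 : ((((Icc 1 N).filter (fun x' => w.1 + w.2 = x + x')).card : ℕ) : ℝ) ≤ 1 := by exact_mod_cast h3
    have h5 := hk_nonneg a k x w.1 w.2
    nlinarith
  refine h2.trans (le_of_eq ?_)
  rw [Finset.sum_product]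

/-- the fourth moment -/
theorem int_QF (μ : Measure ℝ) [IsFiniteMeasure μ] (a B : ℝ) (ha : 0 ≤ a) (hB : 0 ≤ B)
    (c : ℕ → ℂ) (hc : ∀ n, ‖c n‖ ≤ 1) (k N : ℕ) (hd : DecayR μ a B (2 * (N : ℤ) ^ k)) (hk2 : 2 ≤ k) (hak : a * k ≤ 1) :
    ∫ t, QF c k N t ∂μ ≤ 2 * (N : ℝ) ^ 2 * μ.real Set.univ + 8 * k * B * (N : ℝ) ^ (3 - a * k) := by
  have hM : 0 ≤ μ.real Set.univ := measureReal_nonneg
  have hI : ∀ m, Integrable (fun t => ‖pq c k N m t‖ ^ 2) μ := by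
    intro m
    refine Integrable.of_bound ((((pq_cont c k N m).norm).pow 2).aestronglyMeasurable) (((prs N m).card : ℝ) ^ 2)
      (Filter.Eventually.of_forall (fun t => ?_))
    rw [Real.norm_of_nonneg (by positivity)]
    apply pow_le_pow_left₀ (norm_nonneg _)
    unfold pq
    refine (norm_sum_le _ _).trans ?_
    calc ∑ z ∈ prs N m, ‖(c z.1 * c z.2) * e (t * (lam k z : ℝ))‖ ≤ ∑ _z ∈ prs N m, (1 : ℝ) := by
          apply Finset.sum_le_sum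
          intro z _
          rw [norm_mul, e_norm, mul_one, norm_mul]
          exact mul_le_one₀ (hc _) (norm_nonneg _) (hc _)
      _ = _ := by simp
  unfold QF
  rw [integral_finsetSum _ (fun m _ => hI m)]
  have h1 : ∑ m ∈ range (2 * N + 1), ∫ t, ‖pq c k N m t‖ ^ 2 ∂μ ≤
      ∑ m ∈ range (2 * N + 1), ∑ z ∈ prs N m, ∑ w ∈ prs N m, FT μ (lam k z - lam k w) :=
    Finset.sum_le_sum (fun m _ => int_pq μ c hc k N m)
  refine h1.trans ?_
  have h2 : ∑ m ∈ range (2 * N + 1), ∑ z ∈ prs N m, ∑ w ∈ prs N m, FT μ (lam k z - lam k w) =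
      ∑ z ∈ (Icc 1 N) ×ˢ (Icc 1 N), ∑ w ∈ prs N (z.1 + z.2), FT μ (lam k z - lam k w) := by
    rw [← Finset.sum_fiberwise_of_maps_to (s := (Icc 1 N) ×ˢ (Icc 1 N)) (t := range (2 * N + 1))
      (g := fun z : ℕ × ℕ => z.1 + z.2)]
    · apply Finset.sum_congr rfl
      intro m _
      apply Finset.sum_congr rfl
      intro z hz
      unfold Pool.Agent.W928.MW.prs at hz
      rw [Finset.mem_filter] at hz
      rw [hz.2]
    · intro z hz
      rw [Finset.mem_product, Finset.mem_Icc, Finset.mem_Icc] at hz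
      rw [Finset.mem_range]
      omega
  rw [h2]
  have h3 : ∑ z ∈ (Icc 1 N) ×ˢ (Icc 1 N), ∑ w ∈ prs N (z.1 + z.2), FT μ (lam k z - lam k w) ≤
      ∑ z ∈ (Icc 1 N) ×ˢ (Icc 1 N), ∑ w ∈ prs N (z.1 + z.2),
      ((if w = z then μ.real Set.univ else 0) + (if w = (z.2, z.1) then μ.real Set.univ else 0) +
        B * hk a k z.1 w.1 w.2) := by
    apply Finset.sum_le_sum
    intro z hz
    apply Finset.sum_le_sum
    intro w hw
    exact term_le μ a B ha hB k N hd hk2 z w hz hw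
  refine h3.trans ?_
  have h4 : ∀ z ∈ (Icc 1 N) ×ˢ (Icc 1 N), ∑ w ∈ prs N (z.1 + z.2),
      ((if w = z then μ.real Set.univ else 0) + (if w = (z.2, z.1) then μ.real Set.univ else 0) +
        B * hk a k z.1 w.1 w.2) ≤
      2 * μ.real Set.univ + B * ∑ w ∈ prs N (z.1 + z.2), hk a k z.1 w.1 w.2 := by
    intro z _
    rw [Finset.sum_add_distrib, Finset.sum_add_distrib, ← Finset.mul_sum]
    have b1 : ∑ w ∈ prs N (z.1 + z.2), (if w = z then μ.real Set.univ else 0) ≤ μ.real Set.univ := by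
      rw [Finset.sum_ite_eq']
      split_ifs <;> linarith
    have b2 : ∑ w ∈ prs N (z.1 + z.2), (if w = (z.2, z.1) then μ.real Set.univ else 0) ≤ μ.real Set.univ := by
      rw [Finset.sum_ite_eq']
      split_ifs <;> linarith
    linarith
  refine (Finset.sum_le_sum h4).trans ?_
  rw [Finset.sum_add_distrib, Finset.sum_const, Finset.card_product, Nat.card_Icc, nsmul_eq_mul, ← Finset.mul_sum]
  have h5 := (sum_hk a k N).trans (triple a k N hk2 ha hak)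
  have h6 : (((N + 1 - 1) * (N + 1 - 1) : ℕ) : ℝ) = (N : ℝ) ^ 2 := by
    rw [Nat.add_sub_cancel]; push_cast; ring
  rw [h6]
  have h7 := mul_le_mul_of_nonneg_left h5 hB
  nlinarith

end Pool.Agent.Helper34K9.FD
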